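import Pool.Agent.R280.CubeProj

/-!
A nonseparable projective Banach lattice with a topological order unit.
-/

set_option autoImplicit false

open TopologicalSpace Pool.Agent.R280.BLat

universe v

namespace Pool.Agent.Results.MP_f25e07_an.NonseparableProjective

/-- There is a nonseparable projective Banach lattice with a topological order unit, namely
`C([-1,1]^A)` for every uncountable set `A`. -/
theorem result : (∀ A : Type, ¬ Countable A → IsProjective.{0, v} C(Cube A, ℝ) ∧
      (0 ≤ (1 : C(Cube A, ℝ)) ∧ Dense (gIdeal (1 : C(Cube A, ℝ)))) ∧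
      ¬ SeparableSpace C(Cube A, ℝ)) ∧
    ∃ (P : Type) (_ : NormedAddCommGroup P) (_ : NormedSpace ℝ P) (_ : Lattice P)
      (_ : BanachLattice P), IsProjective.{0, v} P ∧ (∃ e : P, 0 ≤ e ∧ Dense (gIdeal e)) ∧
      ¬ SeparableSpace P := by
  have h : ∀ A : Type, ¬ Countable A → IsProjective.{0, v} C(Cube A, ℝ) ∧
      (0 ≤ (1 : C(Cube A, ℝ)) ∧ Dense (gIdeal (1 : C(Cube A, ℝ)))) ∧
      ¬ SeparableSpace C(Cube A, ℝ) := fun A hA =>
    ⟨cube_isProjective A, ⟨fun _ => zero_le_one, one_dense_gIdeal⟩, cube_not_separable A hA⟩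
  obtain ⟨h1, ⟨h2, h3⟩, h4⟩ := h ℝ (fun hc => Cardinal.not_countable_real
    (Set.countable_univ_iff.2 hc))
  exact ⟨h, C(Cube ℝ, ℝ), inferInstance, inferInstance, inferInstance, inferInstance, h1,
    ⟨1, h2, h3⟩, h4⟩

end Pool.Agent.Results.MP_f25e07_an.NonseparableProjective
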